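import Pool.Agent.NH90.QB.Phase

open Pool.Agent.NH90.QB

namespace Pool.Agent.Results.MP_e1539f_lc.SubQuadraticDimension

/-- For every `c > 0` and every `T₀` there are a dimension `d ≥ 2` and a horizon `T ≥ T₀ d` at which
the minimax regret of mixed-state quantum bandits is smaller than `c d² √T`. -/
theorem result : ∀ c : ℝ, 0 < c → ∀ T₀ : ℕ → ℕ, ∃ d : ℕ, 2 ≤ d ∧ ∃ T : ℕ, T₀ d ≤ T ∧
    minimax d T < c * (d : ℝ) ^ 2 * Real.sqrt T := by
  intro c hc T₀
  obtain ⟨e, he⟩ := exists_nat_gt (2048 * C1 ^ 2 / c ^ 2 + 2)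
  have hC1 : 0 < C1 := by
    have := C0_nonneg
    unfold C1; linarith
  have he2 : (2 : ℝ) < e := by
    have : 0 ≤ 2048 * C1 ^ 2 / c ^ 2 := by positivity
    linarith
  have he0 : (0 : ℝ) < e := by linarith
  have heN : 2 < e := by exact_mod_cast he2
  have hce : 2048 * C1 ^ 2 < c ^ 2 * e := by
    have h1 : 2048 * C1 ^ 2 / c ^ 2 < e := by linarith
    rw [div_lt_iff₀ (by positivity)] at h1
    linarith
  set d := e ^ 2 with hd
  set K := T₀ d with hK
  set M := 4 ^ K * e ^ 3 with hM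
  have hdpos : 0 < d := by positivity
  have hMpos : 0 < M := by positivity
  have hdr : (d : ℝ) = (e : ℝ) ^ 2 := by rw [hd]; push_cast; ring
  have hMr : (M : ℝ) = 4 ^ K * (e : ℝ) ^ 3 := by rw [hM]; push_cast; ring
  have hM2 : (d : ℝ) ^ 3 * 16 ^ K ≤ (M : ℝ) ^ 2 := by
    rw [hdr, hMr]
    have : (16 : ℝ) ^ K = (4 ^ K) ^ 2 := by rw [← pow_mul, mul_comm, pow_mul]; norm_num
    rw [this]
    apply le_of_eq
    ring
  refine ⟨d, by nlinarith, ∑ i ∈ Finset.range (K + 1), rounds d M i, ?_, ?_⟩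
  · calc K ≤ 8 * d ^ 2 * (M * 16 ^ K) := by
          have h1 : K < 16 ^ K := Nat.lt_pow_self (by norm_num)
          have h2 : 1 ≤ 8 * d ^ 2 * M := by
            have : 0 < 8 * d ^ 2 * M := by positivity
            omega
          calc K ≤ 1 * 16 ^ K := by omega
            _ ≤ (8 * d ^ 2 * M) * 16 ^ K := Nat.mul_le_mul_right _ h2
            _ = _ := by ring
      _ = rounds d M K := rfl
      _ ≤ ∑ i ∈ Finset.range (K + 1), rounds d M i :=
          Finset.single_le_sum (f := fun i => rounds d M i) (fun i _ => Nat.zero_le _)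
            (Finset.self_mem_range_succ K)
  · refine lt_of_le_of_lt (upper hdpos hMpos hM2) ?_
    set T := ∑ i ∈ Finset.range (K + 1), rounds d M i with hT
    have hTge : (8 * (e : ℝ) ^ 7 * 64 ^ K) ≤ (T : ℝ) := by
      have h1 : rounds d M K ≤ T :=
        Finset.single_le_sum (f := fun i => rounds d M i) (fun i _ => Nat.zero_le _)
            (Finset.self_mem_range_succ K)
      have h2 : ((rounds d M K : ℕ) : ℝ) ≤ (T : ℝ) := by exact_mod_cast h1
      have h3 : ((rounds d M K : ℕ) : ℝ) = 8 * (e : ℝ) ^ 7 * 64 ^ K := by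
        unfold rounds reps
        push_cast
        rw [hdr, hMr]
        have : (64 : ℝ) ^ K = 4 ^ K * 16 ^ K := by rw [← mul_pow]; norm_num
        rw [this]
        ring
      linarith
    apply lt_of_pow_lt_pow_left₀ 2 (by positivity)
    have hsq : (c * (d : ℝ) ^ 2 * Real.sqrt T) ^ 2 = (c * (d : ℝ) ^ 2) ^ 2 * T := by
      rw [mul_pow, Real.sq_sqrt (Nat.cast_nonneg T)]
    rw [hsq]
    calc (4 * C1 * (32 * (d : ℝ) ^ 2 * M * 2 ^ K)) ^ 2
        = (2048 * C1 ^ 2) * (8 * (e : ℝ) ^ 14 * 64 ^ K) := by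
          rw [hdr, hMr]
          have : (64 : ℝ) ^ K = (4 ^ K * 2 ^ K) ^ 2 := by
            rw [← mul_pow, ← pow_mul, mul_comm K 2, pow_mul]; norm_num
          rw [this]
          ring
      _ < (c ^ 2 * e) * (8 * (e : ℝ) ^ 14 * 64 ^ K) := by
          apply mul_lt_mul_of_pos_right hce (by positivity)
      _ = (c * (d : ℝ) ^ 2) ^ 2 * (8 * (e : ℝ) ^ 7 * 64 ^ K) := by
          rw [hdr]; ring
      _ ≤ (c * (d : ℝ) ^ 2) ^ 2 * T := mul_le_mul_of_nonneg_left hTge (by positivity)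

end Pool.Agent.Results.MP_e1539f_lc.SubQuadraticDimension
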